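import Pool.Agent.Q131.PO4.Defs

set_option autoImplicit false

namespace Pool.Agent.Q131.PO4

variable {V : Type} [Fintype V]

lemma dg_eq_ncard (G : SimpleGraph V) (v : V) : dg G v = (G.neighborSet v).ncard := by
  classical
  rw [dg, ← Set.ncard_coe_finset]
  congr 1
  ext w
  simp

open Classical in
lemma dg_eq_degree (G : SimpleGraph V) (v : V) : dg G v = G.degree v := by
  rw [dg, ← SimpleGraph.card_neighborFinset_eq_degree]
  congr 1
  ext w
  simp

/-- A subgraph with as many neighbours at `u` as the graph contains all edges at `u`. -/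
lemma fill {L : SimpleGraph V} (S : L.Subgraph) {u w : V}
    (h : dg L u ≤ (S.neighborSet u).ncard) (hw : L.Adj u w) : S.Adj u w := by
  rw [dg_eq_ncard] at h
  have h1 : S.neighborSet u ⊆ L.neighborSet u := fun z hz => S.adj_sub hz
  have h2 := Set.eq_of_subset_of_ncard_le h1 h (Set.toFinite _)
  have h3 : w ∈ L.neighborSet u := hw
  rw [← h2] at h3
  exact h3

lemma reach_mem {L : SimpleGraph V} (S : Set V) (hcl : ∀ u ∈ S, ∀ w, L.Adj u w → w ∈ S)
    {x z : V} (hx : x ∈ S) (h : L.Reachable x z) : z ∈ S := by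
  obtain ⟨p⟩ := h
  induction p with
  | nil => exact hx
  | cons ha _ ih => exact ih (hcl _ hx _ ha)

/-- A path between two vertices of degree at most one contains all edges at its vertices. -/
lemma path_closed {L : SimpleGraph V} {x y : V} (P : L.Walk x y) (hP : P.IsPath) (hxy : x ≠ y)
    (h2 : ∀ v, dg L v ≤ 2) (hx : dg L x ≤ 1) (hy : dg L y ≤ 1) {u w : V}
    (hu : u ∈ P.support) (hw : L.Adj u w) : P.toSubgraph.Adj u w := by
  have hnn : ¬ P.Nil := fun h => hxy h.eq
  apply fill _ _ hw
  obtain ⟨i, rfl, hi⟩ := SimpleGraph.Walk.mem_support_iff_exists_getVert.1 hu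
  rcases Nat.eq_zero_or_pos i with rfl | hi0
  · rw [P.getVert_zero, hP.neighborSet_toSubgraph_startpoint hnn, Set.ncard_singleton]
    exact hx
  rcases eq_or_lt_of_le hi with rfl | hi1
  · rw [P.getVert_length, hP.neighborSet_toSubgraph_endpoint hnn, Set.ncard_singleton]
    exact hy
  · rw [hP.ncard_neighborSet_toSubgraph_internal_eq_two hi0.ne' hi1]
    exact h2 _

theorem leaf3 : S_leaf3 := by
  intro V _ L h2 x y z hxy hxz hyz hx hy hz hr hr'
  obtain ⟨P, hP⟩ := hr.exists_isPath
  have hz' : z ∈ {v | v ∈ P.support} := by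
    refine reach_mem {v | v ∈ P.support} ?_ P.start_mem_support hr'
    intro u hu w hw
    have := path_closed P hP hxy h2 hx hy hu hw
    exact P.mem_verts_toSubgraph.1 this.snd_mem
  obtain ⟨i, rfl, hi⟩ := SimpleGraph.Walk.mem_support_iff_exists_getVert.1 hz'
  have hi0 : i ≠ 0 := by
    rintro rfl
    exact hxz (P.getVert_zero).symm
  have hi1 : i < P.length := by
    refine lt_of_le_of_ne hi ?_
    rintro rfl
    exact hyz (P.getVert_length).symm
  have h3 := hP.ncard_neighborSet_toSubgraph_internal_eq_two hi0 hi1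
  have h4 : (P.toSubgraph.neighborSet (P.getVert i)).ncard ≤ (L.neighborSet (P.getVert i)).ncard :=
    Set.ncard_le_ncard (fun z hz => P.toSubgraph.adj_sub hz) (Set.toFinite _)
  rw [← dg_eq_ncard] at h4
  omega

end Pool.Agent.Q131.PO4
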