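import Mathlib

/-!
# Path odd-covers of Eulerian graphs with maximum degree four: definitions and lemma statements
-/

set_option autoImplicit false

namespace Pool.Agent.Q131.PO4

open Classical in
/-- The degree of `v`, as the number of vertices adjacent to `v`. -/
noncomputable def dg {V : Type} [Fintype V] (G : SimpleGraph V) (v : V) : ℕ :=
  (Finset.univ.filter (fun w => G.Adj v w)).card

/-- `S` consists of exactly one edge of each component of `R` which has an edge. -/
def IsSel {V : Type} (R S : SimpleGraph V) : Prop :=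
  S ≤ R ∧ (∀ x y, R.Adj x y → ∃ u v, S.Adj u v ∧ R.Reachable x u) ∧
    (∀ x y u v, S.Adj x y → S.Adj u v → R.Reachable x u → (x = u ∧ y = v) ∨ (x = v ∧ y = u))

/-- (P1) Even degrees at most four: two edge-disjoint graphs with all degrees `0` or `2`. -/
def S_decomp : Prop := ∀ (V : Type) [Fintype V] (G : SimpleGraph V),
  (∀ v, Even (dg G v)) → (∀ v, dg G v ≤ 4) →
    ∃ R B : SimpleGraph V, R ⊔ B = G ∧ (∀ x y, R.Adj x y → ¬ B.Adj x y) ∧
      (∀ v, dg R v = 0 ∨ dg R v = 2) ∧ (∀ v, dg B v = 0 ∨ dg B v = 2)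

/-- (P2) With maximum degree two a component has at most two vertices of degree at most one. -/
def S_leaf3 : Prop := ∀ (V : Type) [Fintype V] (L : SimpleGraph V), (∀ v, dg L v ≤ 2) →
  ∀ x y z : V, x ≠ y → x ≠ z → y ≠ z → dg L x ≤ 1 → dg L y ≤ 1 → dg L z ≤ 1 →
    L.Reachable x y → ¬ L.Reachable x z

/-- (P3) An acyclic graph of maximum degree two with exactly two vertices of degree one is a
path. -/
def S_onepath : Prop := ∀ (V : Type) [Fintype V] (L : SimpleGraph V), L.IsAcyclic →
  (∀ v, dg L v ≤ 2) → ∀ a b : V, a ≠ b → dg L a = 1 → dg L b = 1 →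
    (∀ v, dg L v = 1 → v = a ∨ v = b) →
      ∃ P : (⊤ : SimpleGraph V).Walk a b, P.IsPath ∧ ∀ e, e ∈ P.edges ↔ e ∈ L.edgeSet

open Classical in
/-- (P4) Linking: three linear forests with an odd number of common leaves of the first two
can be changed to three paths. -/
def S_link : Prop := ∀ (V : Type) [Fintype V] (L : Fin 3 → SimpleGraph V),
  (∀ i, (L i).IsAcyclic) → (∀ i v, dg (L i) v ≤ 2) → (∀ v, Even (∑ i, dg (L i) v)) →
    Odd (Finset.univ.filter (fun v : V => dg (L 0) v = 1 ∧ dg (L 1) v = 1)).card →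
      ∃ L' : Fin 3 → SimpleGraph V, (∀ i, (L' i).IsAcyclic) ∧ (∀ i v, dg (L' i) v ≤ 2) ∧
        (∀ i, ∃ a b, a ≠ b ∧ dg (L' i) a = 1 ∧ dg (L' i) b = 1 ∧
          ∀ v, dg (L' i) v = 1 → v = a ∨ v = b) ∧
        ∀ x y, (Odd (Finset.univ.filter (fun i => (L' i).Adj x y)).card ↔
          Odd (Finset.univ.filter (fun i => (L i).Adj x y)).card)

/-- (P5) Removing a selection from a union of disjoint cycles leaves a linear forest; the
selection is a matching, and two selected vertices in one component are joined by the selected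
edge. -/
def S_sel : Prop := ∀ (V : Type) [Fintype V] (R S : SimpleGraph V),
  (∀ v, dg R v = 0 ∨ dg R v = 2) → IsSel R S →
    (R \ S).IsAcyclic ∧ (∀ v, dg S v ≤ 1) ∧ (∀ v, dg (R \ S) v + dg S v = dg R v) ∧
      (∀ x y, x ≠ y → dg S x = 1 → dg S y = 1 → R.Reachable x y → S.Adj x y)

/-- (P6) A selection containing a given edge and avoiding a given further vertex. -/
def S_selRed : Prop := ∀ (V : Type) [Fintype V] (R : SimpleGraph V),
  (∀ v, dg R v = 0 ∨ dg R v = 2) → ∀ c c' q : V, R.Adj c c' → q ≠ c → q ≠ c' →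
    ∃ S, IsSel R S ∧ S.Adj c c' ∧ dg S q = 0

/-- (P7) A selection containing a given edge `p q` whose union with a given matching avoiding
`q` is acyclic. -/
def S_selBlue : Prop := ∀ (V : Type) [Fintype V] (B M : SimpleGraph V),
  (∀ v, dg B v = 0 ∨ dg B v = 2) → (∀ v, dg M v ≤ 1) →
    ∀ p q : V, B.Adj p q → dg M q = 0 →
      ∃ S, IsSel B S ∧ S.Adj p q ∧ (M ⊔ S).IsAcyclic

end Pool.Agent.Q131.PO4
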