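import Pool.Agent.Q131.PO4.Base

set_option autoImplicit false

namespace Pool.Agent.Q131.PO4

variable {V : Type} [Fintype V]

lemma dg_of_mem {L : SimpleGraph V} {v : V} {s : Finset V} (h : ∀ z, z ∈ s ↔ L.Adj v z) :
    dg L v = s.card := by
  classical
  rw [dg]
  congr 1
  ext z
  simp [h]

open Classical in
lemma dg_sup_edge {L : SimpleGraph V} {u v : V} (huv : u ≠ v) (hn : ¬ L.Adj u v) (w : V) :
    dg (L ⊔ SimpleGraph.edge u v) w = dg L w + if w = u ∨ w = v then 1 else 0 := by
  have hL : dg L w = (Finset.univ.filter (fun z => L.Adj w z)).card := dg_of_mem (by simp)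
  rw [hL]
  split_ifs with h
  · rcases h with rfl | rfl
    · rw [← Finset.card_insert_of_notMem (a := v) (by simpa using hn)]
      apply dg_of_mem
      intro z
      simp only [Finset.mem_filter, Finset.mem_univ, true_and, Finset.mem_insert,
          SimpleGraph.sup_adj, SimpleGraph.edge_adj]
      have := huv.symm
      grind
    · rw [← Finset.card_insert_of_notMem (a := u) (by simpa [SimpleGraph.adj_comm] using hn)]
      apply dg_of_mem
      intro z
      simp only [Finset.mem_filter, Finset.mem_univ, true_and, Finset.mem_insert,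
          SimpleGraph.sup_adj, SimpleGraph.edge_adj]
      have := huv.symm
      grind
  · push Not at h
    rw [add_zero]
    apply dg_of_mem
    intro z
    simp only [Finset.mem_filter, Finset.mem_univ, true_and,
        SimpleGraph.sup_adj, SimpleGraph.edge_adj]
    constructor
    · exact Or.inl
    · rintro (h' | ⟨⟨h1, -⟩ | ⟨h1, -⟩, -⟩)
      · exact h'
      · exact absurd h1 h.1
      · exact absurd h1 h.2

open Classical in
/-- the vertices of degree one in `L` -/
noncomputable def lv (L : SimpleGraph V) : Finset V := Finset.univ.filter (fun v => dg L v = 1)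

open Classical in
/-- the vertices of degree one in both graphs -/
noncomputable def T (L : Fin 3 → SimpleGraph V) (i j : Fin 3) : Finset V :=
  Finset.univ.filter (fun v => dg (L i) v = 1 ∧ dg (L j) v = 1)

lemma even_lv {L : SimpleGraph V} (h2 : ∀ v, dg L v ≤ 2) : Even (lv L).card := by
  classical
  have h := L.even_card_odd_degree_vertices
  convert h using 2
  ext v
  simp only [lv, Finset.mem_filter, Finset.mem_univ, true_and]
  have h3 := h2 v
  rw [dg_eq_degree] at h3 ⊢
  constructor
  · intro h
    convert odd_one
  · intro h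
    have h4 : Odd (L.degree v) := by convert h
    rcases h4 with ⟨k, hk⟩
    omega

lemma T_symm (L : Fin 3 → SimpleGraph V) (i j : Fin 3) : T L i j = T L j i := by
  ext v
  simp [T, and_comm]

lemma lv_card {L : Fin 3 → SimpleGraph V} (h2 : ∀ i v, dg (L i) v ≤ 2)
    (hs : ∀ v, Even (∑ i, dg (L i) v)) {i j k : Fin 3} (hij : i ≠ j) (hik : i ≠ k) (hjk : j ≠ k) :
    (lv (L i)).card = (T L i j).card + (T L i k).card := by
  classical
  have hsum : ∀ v, Even (dg (L i) v + dg (L j) v + dg (L k) v) := by
    intro v
    have := hs v
    rw [Fin.sum_univ_three] at this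
    fin_cases i <;> fin_cases j <;> fin_cases k <;> simp at hij hik hjk <;>
      simp only [Fin.zero_eta, Fin.mk_one, Fin.reduceFinMk] at * <;>
      (obtain ⟨r, hr⟩ := this; exact ⟨r, by omega⟩)
  rw [← Finset.card_union_of_disjoint]
  · congr 1
    ext v
    simp only [lv, T, Finset.mem_union, Finset.mem_filter, Finset.mem_univ, true_and]
    obtain ⟨r, hr⟩ := hsum v
    have h1 := h2 i v
    have h3 := h2 j v
    have h4 := h2 k v
    omega
  · rw [Finset.disjoint_left]
    intro v h1 h3
    simp only [T, Finset.mem_filter, Finset.mem_univ, true_and] at h1 h3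
    obtain ⟨r, hr⟩ := hsum v
    omega

lemma T_odd {L : Fin 3 → SimpleGraph V} (h2 : ∀ i v, dg (L i) v ≤ 2)
    (hs : ∀ v, Even (∑ i, dg (L i) v)) {i j : Fin 3} (hij : i ≠ j) (h : Odd (T L i j).card) :
    ∀ a b : Fin 3, a ≠ b → Odd (T L a b).card := by
  have step : ∀ {i j k : Fin 3}, i ≠ j → i ≠ k → j ≠ k → Odd (T L i j).card →
      Odd (T L i k).card := by
    intro i j k hij hik hjk h
    have h1 := lv_card h2 hs hij hik hjk
    have h3 := even_lv (h2 i)
    rw [h1] at h3
    by_contra h4
    rw [Nat.not_odd_iff_even] at h4
    have := h.add_even h4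
    rw [← Nat.not_even_iff_odd] at this
    exact this h3
  have hsw : ∀ {i j : Fin 3}, Odd (T L i j).card → Odd (T L j i).card := by
    intro i j h
    rw [T_symm]; exact h
  intro a b hab
  fin_cases i <;> fin_cases j <;> simp at hij <;> fin_cases a <;> fin_cases b <;>
    simp at hab <;> simp only [Fin.zero_eta, Fin.mk_one, Fin.reduceFinMk] at * <;>
    first
    | exact h
    | exact hsw h
    | exact step (by decide) (by decide) (by decide) h
    | exact step (by decide) (by decide) (by decide) (hsw h)
    | exact hsw (step (by decide) (by decide) (by decide) h)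
    | exact hsw (step (by decide) (by decide) (by decide) (hsw h))

end Pool.Agent.Q131.PO4
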