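import Pool.Agent.Q131.PO4.Link

set_option autoImplicit false

namespace Pool.Agent.Q131.PO4

variable {V : Type} [Fintype V]

/-- Among three leaves some pair is unreachable in both graphs. -/
lemma pick {L M : SimpleGraph V} (hL : ∀ v, dg L v ≤ 2) (hM : ∀ v, dg M v ≤ 2) {s : Finset V}
    (hs : 2 < s.card) (h1 : ∀ v ∈ s, dg L v = 1) (h2 : ∀ v ∈ s, dg M v = 1) :
    ∃ u ∈ s, ∃ v ∈ s, u ≠ v ∧ ¬ L.Reachable u v ∧ ¬ M.Reachable u v := by
  obtain ⟨x, y, z, hx, hy, hz, hxy, hxz, hyz⟩ := Finset.two_lt_card_iff.1 hs
  have key : ∀ N : SimpleGraph V, (∀ v, dg N v ≤ 2) → (∀ v ∈ s, dg N v = 1) →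
      ¬ (N.Reachable x y ∧ N.Reachable x z) ∧ ¬ (N.Reachable x y ∧ N.Reachable y z) ∧
      ¬ (N.Reachable x z ∧ N.Reachable y z) := by
    intro N h2 h1
    have hx1 := (h1 x hx).le
    have hy1 := (h1 y hy).le
    have hz1 := (h1 z hz).le
    refine ⟨fun ⟨a, b⟩ => leaf3 V N h2 x y z hxy hxz hyz hx1 hy1 hz1 a b,
      fun ⟨a, b⟩ => leaf3 V N h2 y x z hxy.symm hyz hxz hy1 hx1 hz1 a.symm b,
      fun ⟨a, b⟩ => leaf3 V N h2 z x y hxz.symm hyz.symm hxy hz1 hx1 hy1 a.symm b.symm⟩
  obtain ⟨a1, a2, a3⟩ := key L hL h1
  obtain ⟨b1, b2, b3⟩ := key M hM h2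
  by_cases c1 : ¬ L.Reachable x y ∧ ¬ M.Reachable x y
  · exact ⟨x, hx, y, hy, hxy, c1⟩
  by_cases c2 : ¬ L.Reachable x z ∧ ¬ M.Reachable x z
  · exact ⟨x, hx, z, hz, hxz, c2⟩
  by_cases c3 : ¬ L.Reachable y z ∧ ¬ M.Reachable y z
  · exact ⟨y, hy, z, hz, hyz, c3⟩
  tauto

open Classical in
/-- the new family: the edge `u v` is added to the graphs `i` and `j` -/
noncomputable def upd (L : Fin 3 → SimpleGraph V) (i j : Fin 3) (u v : V) : Fin 3 → SimpleGraph V :=
  fun k => if k = i ∨ k = j then L k ⊔ SimpleGraph.edge u v else L k

open Classical in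
lemma dg_upd {L : Fin 3 → SimpleGraph V} {i j : Fin 3} {u v : V} (huv : u ≠ v)
    (hi : ¬ (L i).Adj u v) (hj : ¬ (L j).Adj u v) (k : Fin 3) (w : V) :
    dg (upd L i j u v k) w = dg (L k) w + if (k = i ∨ k = j) ∧ (w = u ∨ w = v) then 1 else 0 := by
  by_cases hk : k = i ∨ k = j
  · have hn : ¬ (L k).Adj u v := by
      rcases hk with rfl | rfl
      · exact hi
      · exact hj
    simp only [upd, hk, if_true, true_and]
    exact dg_sup_edge huv hn w
  · simp [upd, hk]

lemma link_aux (V : Type) [Fintype V] : ∀ (n : ℕ) (L : Fin 3 → SimpleGraph V),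
    (∑ i, (lv (L i)).card ≤ n) →
    (∀ i, (L i).IsAcyclic) → (∀ i v, dg (L i) v ≤ 2) → (∀ v, Even (∑ i, dg (L i) v)) →
    (∃ i j, i ≠ j ∧ Odd (T L i j).card) →
      ∃ L' : Fin 3 → SimpleGraph V, (∀ i, (L' i).IsAcyclic) ∧ (∀ i v, dg (L' i) v ≤ 2) ∧
        (∀ i, ∃ a b, a ≠ b ∧ dg (L' i) a = 1 ∧ dg (L' i) b = 1 ∧
          ∀ v, dg (L' i) v = 1 → v = a ∨ v = b) ∧
        ∀ x y, ∀ _ : (∀ k, Decidable ((L' k).Adj x y)), ∀ _ : (∀ k, Decidable ((L k).Adj x y)),
          (Odd (Finset.univ.filter (fun i => (L' i).Adj x y)).card ↔
          Odd (Finset.univ.filter (fun i => (L i).Adj x y)).card) := by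
  classical
  intro n
  induction n with
  | zero =>
    intro L hn hac h2 hs ⟨i, j, hij, hodd⟩
    exfalso
    have h1 : (lv (L i)).card = 0 := by
      have := Finset.single_le_sum (f := fun i => (lv (L i)).card) (fun _ _ => Nat.zero_le _)
        (Finset.mem_univ i)
      omega
    have h3 : (T L i j).card = 0 := by
      have : T L i j ⊆ lv (L i) := by
        intro v hv
        simp only [T, lv, Finset.mem_filter, Finset.mem_univ, true_and] at hv ⊢
        exact hv.1
      have := Finset.card_le_card this
      omega
    rw [h3] at hodd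
    exact absurd hodd (by decide)
  | succ n ih =>
    intro L hn hac h2 hs hT
    obtain ⟨i0, j0, hij0, hodd0⟩ := hT
    have hall := T_odd h2 hs hij0 hodd0
    by_cases hone : ∀ i j, i ≠ j → (T L i j).card ≤ 1
    · refine ⟨L, hac, h2, ?_, fun x y d1 d2 => ?_⟩
      · intro i
        obtain ⟨j, k, hij, hik, hjk⟩ : ∃ j k : Fin 3, i ≠ j ∧ i ≠ k ∧ j ≠ k := by
          fin_cases i
          · exact ⟨1, 2, by decide, by decide, by decide⟩
          · exact ⟨0, 2, by decide, by decide, by decide⟩
          · exact ⟨0, 1, by decide, by decide, by decide⟩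
        have h3 := lv_card h2 hs hij hik hjk
        have h4 := hone i j hij
        have h5 := hone i k hik
        have h6 := (hall i j hij).pos
        have h7 := (hall i k hik).pos
        have h8 : (lv (L i)).card = 2 := by omega
        obtain ⟨a, b, hab, hl⟩ := Finset.card_eq_two.1 h8
        have hmem : ∀ v, dg (L i) v = 1 ↔ v = a ∨ v = b := by
          intro v
          have : v ∈ lv (L i) ↔ v ∈ ({a, b} : Finset V) := by rw [hl]
          simpa [lv] using this
        exact ⟨a, b, hab, (hmem a).2 (Or.inl rfl), (hmem b).2 (Or.inr rfl), fun v => (hmem v).1⟩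
      · have : d1 = d2 := Subsingleton.elim _ _
        subst this
        rfl
    · push Not at hone
      obtain ⟨i, j, hij, hbig⟩ := hone
      have hodd := hall i j hij
      have hbig' : 2 < (T L i j).card := by
        obtain ⟨r, hr⟩ := hodd
        omega
      have hTi : ∀ v ∈ T L i j, dg (L i) v = 1 := by
        intro v hv
        simp only [T, Finset.mem_filter, Finset.mem_univ, true_and] at hv
        exact hv.1
      have hTj : ∀ v ∈ T L i j, dg (L j) v = 1 := by
        intro v hv
        simp only [T, Finset.mem_filter, Finset.mem_univ, true_and] at hv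
        exact hv.2
      obtain ⟨u, hu, v, hv, huv, hri, hrj⟩ := pick (h2 i) (h2 j) hbig' hTi hTj
      have hni : ¬ (L i).Adj u v := fun h => hri h.reachable
      have hnj : ¬ (L j).Adj u v := fun h => hrj h.reachable
      have hd := fun k w => dg_upd huv hni hnj k w
      have A1 : ∑ k, (lv (upd L i j u v k)).card ≤ n := by
        have hlt : ∑ k, (lv (upd L i j u v k)).card < ∑ k, (lv (L k)).card := by
          have hsub : ∀ k, lv (upd L i j u v k) ⊆ lv (L k) := by
            intro k w hw
            simp only [lv, Finset.mem_filter, Finset.mem_univ, true_and] at hw ⊢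
            rw [hd] at hw
            split_ifs at hw with hc
            · exfalso
              have : dg (L k) w = 1 := by
                rcases hc with ⟨rfl | rfl, rfl | rfl⟩
                · exact hTi _ hu
                · exact hTi _ hv
                · exact hTj _ hu
                · exact hTj _ hv
              omega
            · exact hw
          apply Finset.sum_lt_sum
          · intro k _
            exact Finset.card_le_card (hsub k)
          · refine ⟨i, Finset.mem_univ _, Finset.card_lt_card ⟨hsub i, fun h => ?_⟩⟩
            have hu1 : u ∈ lv (L i) := by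
              simp only [lv, Finset.mem_filter, Finset.mem_univ, true_and]
              exact hTi _ hu
            have hu2 := h hu1
            simp only [lv, Finset.mem_filter, Finset.mem_univ, true_and] at hu2
            rw [hd, hTi _ hu] at hu2
            simp at hu2
        omega
      have A2 : ∀ k, (upd L i j u v k).IsAcyclic := by
        intro k
        by_cases hk : k = i ∨ k = j
        · simp only [upd, hk, if_true]
          apply SimpleGraph.IsAcyclic.sup_edge_of_not_reachable _ (hac k)
          rcases hk with rfl | rfl
          · exact hri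
          · exact hrj
        · simp only [upd, hk, if_false]
          exact hac k
      have A3 : ∀ k w, dg (upd L i j u v k) w ≤ 2 := by
        intro k w
        rw [hd]
        split_ifs with hc
        · have : dg (L k) w = 1 := by
            rcases hc with ⟨rfl | rfl, rfl | rfl⟩
            · exact hTi _ hu
            · exact hTi _ hv
            · exact hTj _ hu
            · exact hTj _ hv
          omega
        · exact h2 k w
      have A4 : ∀ w, Even (∑ k, dg (upd L i j u v k) w) := by
        intro w
        have e1 : ∑ k, dg (upd L i j u v k) w = ∑ k, dg (L k) w +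
            ∑ k, (if (k = i ∨ k = j) ∧ (w = u ∨ w = v) then 1 else 0) := by
          rw [← Finset.sum_add_distrib]
          exact Finset.sum_congr rfl (fun k _ => hd k w)
        rw [e1]
        apply (hs w).add
        by_cases hw : w = u ∨ w = v
        · simp only [hw, and_true]
          rw [Finset.sum_boole]
          have : (Finset.univ.filter (fun k => k = i ∨ k = j)) = {i, j} := by
            ext k
            simp
          rw [this, Finset.card_pair hij]
          decide
        · simp [hw]
      have A5 : ∃ a b, a ≠ b ∧ Odd (T (upd L i j u v) a b).card := by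
        refine ⟨i, j, hij, ?_⟩
        have e1 : T L i j = insert u (insert v (T (upd L i j u v) i j)) := by
          ext w
          simp only [T, Finset.mem_filter, Finset.mem_univ, true_and, Finset.mem_insert, hd]
          by_cases hw : w = u ∨ w = v
          · have : dg (L i) w = 1 ∧ dg (L j) w = 1 := by
              rcases hw with rfl | rfl
              · exact ⟨hTi _ hu, hTj _ hu⟩
              · exact ⟨hTi _ hv, hTj _ hv⟩
            simp only [this, true_and]
            tauto
          · push Not at hw
            simp [hw.1, hw.2]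
        have hv' : v ∉ T (upd L i j u v) i j := by
          simp only [T, Finset.mem_filter, Finset.mem_univ, true_and, hd]
          rw [hTi _ hv]
          simp
        have hu' : u ∉ insert v (T (upd L i j u v) i j) := by
          simp only [T, Finset.mem_filter, Finset.mem_univ, true_and, Finset.mem_insert, hd]
          rw [hTi _ hu]
          simp [huv]
        rw [e1, Finset.card_insert_of_notMem hu', Finset.card_insert_of_notMem hv'] at hodd
        obtain ⟨r, hr⟩ := hodd
        exact ⟨r - 1, by omega⟩
      obtain ⟨L', hac', h2', hex', hpar⟩ := ih (upd L i j u v) A1 A2 A3 A4 A5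
      refine ⟨L', hac', h2', hex', ?_⟩
      intro x y d1 d2
      rw [hpar x y d1 (fun k => Classical.dec _)]
      by_cases hxy : (x = u ∧ y = v) ∨ (x = v ∧ y = u)
      · have e1 : (Finset.univ.filter (fun k => (upd L i j u v k).Adj x y)) =
            (Finset.univ.filter (fun k => (L k).Adj x y)) ∪ {i, j} := by
          ext k
          simp only [Finset.mem_filter, Finset.mem_univ, true_and, Finset.mem_union,
            Finset.mem_insert, Finset.mem_singleton]
          by_cases hk : k = i ∨ k = j
          · simp only [upd, hk, if_true, or_true, iff_true, SimpleGraph.sup_adj,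
              SimpleGraph.edge_adj]
            right
            rcases hxy with ⟨rfl, rfl⟩ | ⟨rfl, rfl⟩
            · exact ⟨Or.inl ⟨rfl, rfl⟩, huv⟩
            · exact ⟨Or.inr ⟨rfl, rfl⟩, huv.symm⟩
          · simp [upd, hk]
        have e2 : Disjoint (Finset.univ.filter (fun k => (L k).Adj x y)) {i, j} := by
          rw [Finset.disjoint_right]
          intro k hk
          simp only [Finset.mem_insert, Finset.mem_singleton] at hk
          simp only [Finset.mem_filter, Finset.mem_univ, true_and]
          intro h
          have h' : (L k).Adj u v := by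
            rcases hxy with ⟨rfl, rfl⟩ | ⟨rfl, rfl⟩
            · exact h
            · exact h.symm
          rcases hk with rfl | rfl
          · exact hni h'
          · exact hnj h'
        have e3 : (Finset.univ.filter (fun k => (upd L i j u v k).Adj x y)).card =
            (Finset.univ.filter (fun k => (L k).Adj x y)).card + 2 := by
          rw [e1, Finset.card_union_of_disjoint e2, Finset.card_pair hij]
        rw [show (Odd (Finset.univ.filter (fun k => (upd L i j u v k).Adj x y)).card ↔ _) from
          by rw [e3]]
        rw [Nat.odd_add]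
        simp
      · have e1 : (Finset.univ.filter (fun k => (upd L i j u v k).Adj x y)) =
            (Finset.univ.filter (fun k => (L k).Adj x y)) := by
          ext k
          simp only [Finset.mem_filter, Finset.mem_univ, true_and]
          by_cases hk : k = i ∨ k = j
          · simp only [upd, hk, if_true, SimpleGraph.sup_adj, SimpleGraph.edge_adj]
            tauto
          · simp [upd, hk]
        rw [e1]

theorem link : S_link := by
  classical
  intro V _ L hac h2 hs hodd
  obtain ⟨L', h1, h3, h4, h5⟩ := link_aux V _ L le_rfl hac h2 hs ⟨0, 1, by decide, by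
    convert hodd using 2
    ext v
    simp [T]⟩
  exact ⟨L', h1, h3, h4, fun x y => h5 x y _ _⟩

end Pool.Agent.Q131.PO4
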