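import Pool.Agent.Q131.PO4.Base

set_option autoImplicit false

namespace Pool.Agent.Q131.PO4

variable {V : Type} [Fintype V]

/-- In a finite acyclic graph there is a leaf `z ≠ u` reachable from a non-isolated vertex `u`. -/
lemma end_leaf {L : SimpleGraph V} (hac : L.IsAcyclic) {u w : V} (huw : L.Adj u w) :
    ∃ z, z ≠ u ∧ L.Reachable u z ∧ dg L z = 1 := by
  classical
  by_contra hcon
  push Not at hcon
  have key : ∀ n : ℕ, ∃ (z : V) (P : L.Walk u z), P.IsPath ∧ P.length = n + 1 := by
    intro n
    induction n with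
    | zero =>
      refine ⟨w, huw.toWalk, ?_, by simp⟩
      exact SimpleGraph.Walk.IsPath.of_adj huw
    | succ n ih =>
      obtain ⟨z, P, hP, hl⟩ := ih
      have hnn : ¬ P.Nil := by
        intro h
        have := SimpleGraph.Walk.length_eq_zero_iff.2 h
        omega
      have hzu : z ≠ u := by
        rintro rfl
        have := SimpleGraph.Walk.isPath_iff_eq_nil.1 hP
        exact hnn (SimpleGraph.Walk.nil_iff_eq_nil.2 this)
      have h1 := hcon z hzu ⟨P⟩
      have hadj : L.Adj P.penultimate z := P.adj_penultimate hnn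
      have hex : ∃ z', L.Adj z z' ∧ z' ≠ P.penultimate := by
        by_contra hno
        push Not at hno
        apply h1
        rw [dg, Finset.card_eq_one]
        refine ⟨P.penultimate, ?_⟩
        ext t
        simp only [Finset.mem_filter, Finset.mem_univ, true_and, Finset.mem_singleton]
        exact ⟨hno t, fun h => h ▸ hadj.symm⟩
      obtain ⟨z', hz1, hz2⟩ := hex
      have hz3 : z' ∉ P.support := fun h => hz2 (hac.eq_penultimate_of_adj_end hP hz1 h)
      exact ⟨z', P.concat hz1, hP.concat hz3 hz1, by simp [hl]⟩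
  obtain ⟨z, P, hP, hl⟩ := key (Fintype.card V)
  have := hP.length_lt
  omega

theorem onepath : S_onepath := by
  intro V _ L hac h2 a b hab ha hb honly
  classical
  have hreach : L.Reachable a b := by
    have hne : (Finset.univ.filter (fun w => L.Adj a w)).Nonempty := by
      rw [← Finset.card_pos]
      change 0 < dg L a
      omega
    obtain ⟨w, hw⟩ := hne
    simp only [Finset.mem_filter, Finset.mem_univ, true_and] at hw
    obtain ⟨z, hz1, hz2, hz3⟩ := end_leaf hac hw
    rcases honly z hz3 with rfl | rfl
    · exact absurd rfl hz1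
    · exact hz2
  obtain ⟨P, hP⟩ := hreach.exists_isPath
  have hcl : ∀ u ∈ P.support, ∀ w, L.Adj u w → P.toSubgraph.Adj u w := fun u hu w hw =>
    path_closed P hP hab h2 ha.le hb.le hu hw
  have hall : ∀ u w, L.Adj u w → P.toSubgraph.Adj u w := by
    intro u w huw
    apply hcl _ _ _ huw
    obtain ⟨z, hz1, hz2, hz3⟩ := end_leaf hac huw
    have hz4 : z ∈ P.support := by
      rcases honly z hz3 with rfl | rfl
      · exact P.start_mem_support
      · exact P.end_mem_support
    refine reach_mem {v | v ∈ P.support} ?_ hz4 hz2.symm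
    intro u hu w hw
    exact P.mem_verts_toSubgraph.1 (hcl u hu w hw).snd_mem
  refine ⟨P.mapLe le_top, ?_, ?_⟩
  · exact (SimpleGraph.Walk.isPath_mapLe _).2 hP
  · intro e
    rw [SimpleGraph.Walk.edges_mapLe_eq_edges]
    constructor
    · exact fun h => P.edges_subset_edgeSet h
    · intro he
      induction e using Sym2.ind with
      | _ u w =>
        have := hall u w he
        exact P.mem_edges_toSubgraph.1 this

theorem sel : S_sel := by
  intro V _ R S hR hS
  obtain ⟨hle, hex, huniq⟩ := hS
  classical
  have hm : ∀ v, dg S v ≤ 1 := by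
    intro v
    rw [dg, Finset.card_le_one]
    intro a ha b hb
    simp only [Finset.mem_filter, Finset.mem_univ, true_and] at ha hb
    rcases huniq v a v b ha hb (SimpleGraph.Reachable.refl _) with ⟨-, h⟩ | ⟨h1, h2⟩
    · exact h
    · exact absurd h2.symm ha.ne
  refine ⟨?_, hm, ?_, ?_⟩
  · intro v c hc
    have hc' : (c.mapLe (sdiff_le : R \ S ≤ R)).IsCycle := (SimpleGraph.Walk.isCycle_mapLe _).2 hc
    set c' := c.mapLe (sdiff_le : R \ S ≤ R) with hcdef
    have hcl : ∀ u ∈ c'.support, ∀ w, R.Adj u w → c'.toSubgraph.Adj u w := by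
      intro u hu w hw
      apply fill _ _ hw
      rw [hc'.ncard_neighborSet_toSubgraph_eq_two hu]
      rcases hR u with h | h <;> omega
    have h1 : R.Adj v c'.snd := c'.adj_snd hc'.not_nil
    obtain ⟨u, w, huw, hvu⟩ := hex v _ h1
    have hu : u ∈ c'.support := by
      refine reach_mem {v | v ∈ c'.support} ?_ c'.start_mem_support hvu
      intro u hu w hw
      exact c'.mem_verts_toSubgraph.1 (hcl u hu w hw).snd_mem
    have h2 := hcl u hu w (hle huw)
    have h3 : s(u, w) ∈ c'.edges := c'.mem_edges_toSubgraph.1 h2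
    rw [hcdef, SimpleGraph.Walk.edges_mapLe_eq_edges] at h3
    have h4 := c.edges_subset_edgeSet h3
    rw [SimpleGraph.mem_edgeSet, SimpleGraph.sdiff_adj] at h4
    exact h4.2 huw
  · intro v
    rw [dg, dg, dg, ← Finset.card_union_of_disjoint]
    · congr 1
      ext w
      simp only [Finset.mem_union, Finset.mem_filter, Finset.mem_univ, true_and,
        SimpleGraph.sdiff_adj]
      constructor
      · rintro (h | h)
        · exact h.1
        · exact hle h
      · intro h
        by_cases h' : S.Adj v w
        · exact Or.inr h'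
        · exact Or.inl ⟨h, h'⟩
    · rw [Finset.disjoint_left]
      intro w h1 h2
      simp only [Finset.mem_filter, Finset.mem_univ, true_and, SimpleGraph.sdiff_adj] at h1 h2
      exact h1.2 h2
  · intro x y hxy hx hy hr
    have hex' : ∀ z, dg S z = 1 → ∃ w, S.Adj z w := by
      intro z hz
      have hne : (Finset.univ.filter (fun w => S.Adj z w)).Nonempty := by
        rw [← Finset.card_pos]
        change 0 < dg S z
        omega
      obtain ⟨w, hw⟩ := hne
      exact ⟨w, by simpa using hw⟩
    obtain ⟨x', hx'⟩ := hex' x hx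
    obtain ⟨y', hy'⟩ := hex' y hy
    rcases huniq x x' y y' hx' hy' hr with ⟨h, -⟩ | ⟨-, h⟩
    · exact absurd h hxy
    · rw [← h]; exact hx'

end Pool.Agent.Q131.PO4
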