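import Pool.Agent.Q131.PO4.Link2
import Pool.Agent.Q131.PO4.One

set_option autoImplicit false

namespace Pool.Agent.Q131.PO4

variable {V : Type} [Fintype V]

lemma dg_sdiff_edge {L : SimpleGraph V} {u v : V} (h : L.Adj u v) (w : V)
    [Decidable (w = u ∨ w = v)] :
    dg (L \ SimpleGraph.edge u v) w + (if w = u ∨ w = v then 1 else 0) = dg L w := by
  have hn : ¬ (L \ SimpleGraph.edge u v).Adj u v := by
    rw [SimpleGraph.sdiff_adj, SimpleGraph.edge_adj]
    have := h.ne
    tauto
  have h1 := dg_sup_edge h.ne hn w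
  have hle : SimpleGraph.edge u v ≤ L := by
    intro x y hxy
    rw [SimpleGraph.edge_adj] at hxy
    rcases hxy with ⟨⟨rfl, rfl⟩ | ⟨rfl, rfl⟩, -⟩
    · exact h
    · exact h.symm
  rw [sdiff_sup_cancel hle] at h1
  rw [h1]
  congr

lemma dg_sup_disj {L M : SimpleGraph V} (h : ∀ x y, L.Adj x y → ¬ M.Adj x y) (v : V) :
    dg (L ⊔ M) v = dg L v + dg M v := by
  classical
  have e1 : dg L v = (Finset.univ.filter (fun z => L.Adj v z)).card := dg_of_mem (by simp)
  have e2 : dg M v = (Finset.univ.filter (fun z => M.Adj v z)).card := dg_of_mem (by simp)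
  rw [e1, e2, ← Finset.card_union_of_disjoint]
  · apply dg_of_mem
    intro z
    simp
  · rw [Finset.disjoint_left]
    intro z h1 h2
    simp only [Finset.mem_filter, Finset.mem_univ, true_and] at h1 h2
    exact h v z h1 h2

lemma exists_adj {L : SimpleGraph V} {v : V} (h : 0 < dg L v) : ∃ w, L.Adj v w := by
  classical
  have e1 : dg L v = (Finset.univ.filter (fun z => L.Adj v z)).card := dg_of_mem (by simp)
  rw [e1, Finset.card_pos] at h
  obtain ⟨w, hw⟩ := h
  exact ⟨w, by simpa using hw⟩

lemma exists_adj_ne {L : SimpleGraph V} {v : V} (h : 1 < dg L v) (a : V) :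
    ∃ w, L.Adj v w ∧ w ≠ a := by
  classical
  have e1 : dg L v = (Finset.univ.filter (fun z => L.Adj v z)).card := dg_of_mem (by simp)
  rw [e1] at h
  obtain ⟨w, hw, hwa⟩ := Finset.exists_mem_ne h a
  exact ⟨w, by simpa using hw, hwa⟩

lemma dg_pos {L : SimpleGraph V} {v w : V} (h : L.Adj v w) : 0 < dg L v := by
  classical
  have e1 : dg L v = (Finset.univ.filter (fun z => L.Adj v z)).card := dg_of_mem (by simp)
  rw [e1, Finset.card_pos]
  exact ⟨w, by simpa using h⟩

lemma not_adj {L : SimpleGraph V} {v w : V} (h : dg L v = 0) : ¬ L.Adj v w :=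
  fun h' => absurd (dg_pos h') (by omega)

lemma adj_unique {L : SimpleGraph V} {v a b : V} (h : dg L v ≤ 1) (ha : L.Adj v a)
    (hb : L.Adj v b) : a = b := by
  classical
  have e1 : dg L v = (Finset.univ.filter (fun z => L.Adj v z)).card := dg_of_mem (by simp)
  rw [e1, Finset.card_le_one] at h
  exact h a (by simpa using ha) b (by simpa using hb)

lemma par3 (p : Fin 3 → Prop) [DecidablePred p] :
    Odd (Finset.univ.filter p).card ↔ Xor' (Xor' (p 0) (p 1)) (p 2) := by
  rw [Finset.card_filter, Fin.sum_univ_three]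
  by_cases h0 : p 0 <;> by_cases h1 : p 1 <;> by_cases h2 : p 2 <;> simp [h0, h1, h2, Xor'] <;>
    decide

lemma logic0 (R B S S' : Prop) (k1 : R → ¬ B) (k2 : S → R) (k3 : S' → B) :
    (R ∨ B) ↔ Xor' (Xor' (R ∧ ¬ S) (B ∧ ¬ S')) (S ∨ S') := by
  by_cases R <;> by_cases B <;> by_cases S <;> by_cases S' <;> simp_all [Xor']

lemma logic1 (R B S S' E : Prop) (k1 : R → ¬ B) (k2 : S → R) (k3 : S' → B) (k4 : E → B ∧ ¬ S') :
    (R ∨ B) ↔ Xor' (Xor' (R ∧ ¬ S) ((B ∧ ¬ S') ∧ ¬ E)) ((S ∨ S') ∨ E) := by
  by_cases R <;> by_cases B <;> by_cases S <;> by_cases S' <;> by_cases E <;> simp_all [Xor']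

lemma logic2 (R B S S' E : Prop) (k1 : R → ¬ B) (k2 : S → R) (k3 : S' → B) (k4 : E → B ∧ ¬ S') :
    (R ∨ B) ↔ Xor' (Xor' ((R ∧ ¬ S) ∨ E) ((B ∧ ¬ S') ∧ ¬ E)) (S ∨ S') := by
  by_cases R <;> by_cases B <;> by_cases S <;> by_cases S' <;> by_cases E <;> simp_all [Xor']

open Classical in
/-- Three linear forests with all properties needed for linking. -/
lemma forests (hd : S_decomp) (hr : S_selRed) (hb : S_selBlue) (G : SimpleGraph V)
    (heven : ∀ v, Even (dg G v)) (h4 : ∀ v, dg G v ≤ 4) (c : V) (hc : dg G c = 4) :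
    ∃ L : Fin 3 → SimpleGraph V, (∀ i, (L i).IsAcyclic) ∧ (∀ i v, dg (L i) v ≤ 2) ∧
      (∀ v, Even (∑ i, dg (L i) v)) ∧
      Odd (Finset.univ.filter (fun v : V => dg (L 0) v = 1 ∧ dg (L 1) v = 1)).card ∧
      ∀ x y, G.Adj x y ↔ Odd (Finset.univ.filter (fun i => (L i).Adj x y)).card := by
  obtain ⟨R, B, hG, hdis, hR, hB⟩ := hd V G heven h4
  have hdG : ∀ v, dg G v = dg R v + dg B v := fun v => by rw [← hG]; exact dg_sup_disj hdis v
  have hcR : dg R c = 2 := by
    have := hdG c; rcases hR c with h | h <;> rcases hB c with h' | h' <;> omega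
  have hcB : dg B c = 2 := by
    have := hdG c; rcases hR c with h | h <;> rcases hB c with h' | h' <;> omega
  obtain ⟨p, hcp⟩ := exists_adj (L := B) (v := c) (by omega)
  have hpB : dg B p = 2 := by
    have := dg_pos hcp.symm
    rcases hB p with h' | h' <;> omega
  obtain ⟨q, hpq, hqc⟩ := exists_adj_ne (L := B) (v := p) (by omega) c
  obtain ⟨c', hcc', hc'q⟩ := exists_adj_ne (L := R) (v := c) (by omega) q
  obtain ⟨S, hS, hScc', hSq⟩ := hr V R hR c c' q hcc' hqc hc'q.symm
  obtain ⟨hacR, hS1, hSdeg, hSadj⟩ := sel V R S hR hS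
  obtain ⟨S', hS', hSpq, hac3⟩ := hb V B S hB hS1 p q hpq hSq
  obtain ⟨hacB, hS1', hSdeg', hSadj'⟩ := sel V B S' hB hS'
  have hSc : dg S c = 1 := le_antisymm (hS1 c) (dg_pos hScc')
  have hSp' : dg S' p = 1 := le_antisymm (hS1' p) (dg_pos hSpq)
  have hSq' : dg S' q = 1 := le_antisymm (hS1' q) (dg_pos hSpq.symm)
  have hSc' : dg S' c = 0 := by
    by_contra hne
    obtain ⟨x, hx⟩ := exists_adj (L := S') (v := c) (Nat.pos_of_ne_zero hne)
    rcases hS'.2.2 c x p q hx hSpq hcp.reachable with ⟨h, -⟩ | ⟨h, -⟩
    · exact hcp.ne h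
    · exact hqc h.symm
  have hSS' : ∀ x y, S.Adj x y → ¬ S'.Adj x y := fun x y h h' => hdis x y (hS.1 h) (hS'.1 h')
  have h3deg : ∀ v, dg (S ⊔ S') v = dg S v + dg S' v := dg_sup_disj hSS'
  -- the first family
  by_cases hodd : Odd (Finset.univ.filter (fun v : V => dg (R \ S) v = 1 ∧ dg (B \ S') v = 1)).card
  · refine ⟨![R \ S, B \ S', S ⊔ S'], ?_, ?_, ?_, hodd, ?_⟩
    · intro i
      fin_cases i
      · exact hacR
      · exact hacB
      · exact hac3
    · intro i v
      have e1 := hSdeg v
      have e2 := hSdeg' v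
      have e3 := h3deg v
      have e4 := hS1 v
      have e5 := hS1' v
      have e6 := hR v
      have e7 := hB v
      fin_cases i
      · change dg (R \ S) v ≤ 2
        omega
      · change dg (B \ S') v ≤ 2
        omega
      · change dg (S ⊔ S') v ≤ 2
        omega
    · intro v
      rw [Fin.sum_univ_three]
      change Even (dg (R \ S) v + dg (B \ S') v + dg (S ⊔ S') v)
      have e1 := hSdeg v
      have e2 := hSdeg' v
      have e3 := h3deg v
      have e6 := hdG v
      obtain ⟨r, hr⟩ := heven v
      exact ⟨r, by omega⟩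
    · intro x y
      rw [par3]
      change G.Adj x y ↔ Xor' (Xor' ((R \ S).Adj x y) ((B \ S').Adj x y)) ((S ⊔ S').Adj x y)
      rw [← hG]
      simp only [SimpleGraph.sdiff_adj, SimpleGraph.sup_adj]
      have k1 := hdis x y
      have k2 : S.Adj x y → R.Adj x y := fun h => hS.1 h
      have k3 : S'.Adj x y → B.Adj x y := fun h => hS'.1 h
      exact logic0 _ _ _ _ k1 k2 k3
  rw [Nat.not_odd_iff_even] at hodd
  -- the blue edge `c p`
  have hnS' : ¬ S'.Adj c p := not_adj hSc'
  have hcpL : (B \ S').Adj c p := by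
    rw [SimpleGraph.sdiff_adj]
    exact ⟨hcp, hnS'⟩
  have hL2 : ∀ w, dg ((B \ S') \ SimpleGraph.edge c p) w + (if w = c ∨ w = p then 1 else 0) =
      dg (B \ S') w := fun w => dg_sdiff_edge hcpL w
  have hedge : ∀ x y, (SimpleGraph.edge c p).Adj x y → B.Adj x y ∧ ¬ S'.Adj x y := by
    intro x y hxy
    rw [SimpleGraph.edge_adj] at hxy
    rcases hxy with ⟨⟨rfl, rfl⟩ | ⟨rfl, rfl⟩, -⟩
    · exact ⟨hcp, hnS'⟩
    · exact ⟨hcp.symm, fun h => hnS' h.symm⟩
  rcases Nat.eq_zero_or_pos (dg S p) with hSp | hSp
  · -- `p` is not covered by the red selection: move `c p` to the third forest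
    have hunr : ¬ (S ⊔ S').Reachable c p := by
      intro h
      have : c ∈ ({p, q} : Set V) := by
        refine reach_mem {p, q} ?_ (by simp) h.symm
        rintro u (rfl | rfl) w hw
        · rcases hw with hw | hw
          · exact absurd hw (not_adj hSp)
          · right
            exact adj_unique (hS1' u) hw hSpq
        · rcases hw with hw | hw
          · exact absurd hw (not_adj hSq)
          · left
            exact adj_unique (hS1' u) hw hSpq.symm
      rcases this with h | h
      · exact hcp.ne h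
      · exact hqc h.symm
    have hL3 : ∀ w, dg ((S ⊔ S') ⊔ SimpleGraph.edge c p) w =
        dg (S ⊔ S') w + if w = c ∨ w = p then 1 else 0 := fun w =>
      dg_sup_edge hcp.ne (fun h => hunr h.reachable) w
    have hpR : dg (R \ S) p ≠ 1 := by
      have := hSdeg p
      rcases hR p with h | h <;> omega
    refine ⟨![R \ S, (B \ S') \ SimpleGraph.edge c p, (S ⊔ S') ⊔ SimpleGraph.edge c p],
      ?_, ?_, ?_, ?_, ?_⟩
    · intro i
      fin_cases i
      · exact hacR
      · exact hacB.anti sdiff_le
      · exact SimpleGraph.IsAcyclic.sup_edge_of_not_reachable hunr hac3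
    · intro i v
      have e1 := hSdeg v
      have e2 := hSdeg' v
      have e3 := h3deg v
      have e4 := hS1 v
      have e5 := hS1' v
      have e6 := hR v
      have e7 := hB v
      have e8 := hL2 v
      have e9 := hL3 v
      fin_cases i
      · change dg (R \ S) v ≤ 2
        omega
      · change dg ((B \ S') \ SimpleGraph.edge c p) v ≤ 2
        omega
      · change dg ((S ⊔ S') ⊔ SimpleGraph.edge c p) v ≤ 2
        rw [e9]
        split_ifs with hv
        · rcases hv with rfl | rfl <;> omega
        · omega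
    · intro v
      rw [Fin.sum_univ_three]
      change Even (dg (R \ S) v + dg ((B \ S') \ SimpleGraph.edge c p) v +
        dg ((S ⊔ S') ⊔ SimpleGraph.edge c p) v)
      have e1 := hSdeg v
      have e2 := hSdeg' v
      have e3 := h3deg v
      have e6 := hdG v
      have e8 := hL2 v
      have e9 := hL3 v
      obtain ⟨r, hr⟩ := heven v
      exact ⟨r, by omega⟩
    · change Odd (Finset.univ.filter (fun v : V => dg (R \ S) v = 1 ∧
        dg ((B \ S') \ SimpleGraph.edge c p) v = 1)).card
      have hins : (Finset.univ.filter (fun v : V => dg (R \ S) v = 1 ∧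
          dg ((B \ S') \ SimpleGraph.edge c p) v = 1)) =
          insert c (Finset.univ.filter (fun v : V => dg (R \ S) v = 1 ∧ dg (B \ S') v = 1)) := by
        ext v
        simp only [Finset.mem_filter, Finset.mem_univ, true_and, Finset.mem_insert]
        have e1 := hSdeg v
        have e2 := hSdeg' v
        have e8 := hL2 v
        by_cases hvc : v = c
        · subst hvc
          simp only [true_or, if_true] at e8
          simp only [true_or, iff_true]
          omega
        · by_cases hvp : v = p
          · subst hvp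
            simp only [hpR, false_and, or_false, false_iff]
            exact hvc
          · simp only [hvc, hvp, or_self, if_false, add_zero, false_or] at e8 ⊢
            rw [e8]
      rw [hins, Finset.card_insert_of_notMem]
      · exact hodd.add_one
      · simp only [Finset.mem_filter, Finset.mem_univ, true_and, not_and]
        intro _
        have := hSdeg' c
        omega
    · intro x y
      rw [par3]
      change G.Adj x y ↔ Xor' (Xor' ((R \ S).Adj x y)
        (((B \ S') \ SimpleGraph.edge c p).Adj x y)) (((S ⊔ S') ⊔ SimpleGraph.edge c p).Adj x y)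
      rw [← hG]
      simp only [SimpleGraph.sdiff_adj, SimpleGraph.sup_adj]
      have k1 := hdis x y
      have k2 : S.Adj x y → R.Adj x y := fun h => hS.1 h
      have k3 : S'.Adj x y → B.Adj x y := fun h => hS'.1 h
      have k4 := hedge x y
      exact logic1 _ _ _ _ _ k1 k2 k3 k4
  · -- `p` is covered by the red selection: move `c p` to the first forest
    have hSp1 : dg S p = 1 := le_antisymm (hS1 p) hSp
    have hunr : ¬ (R \ S).Reachable c p := by
      intro h
      have h' : R.Reachable c p := h.mono sdiff_le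
      have := hSadj c p hcp.ne hSc hSp1 h'
      exact hdis c p (hS.1 this) hcp
    have hL1 : ∀ w, dg ((R \ S) ⊔ SimpleGraph.edge c p) w =
        dg (R \ S) w + if w = c ∨ w = p then 1 else 0 := fun w =>
      dg_sup_edge hcp.ne (fun h => hunr h.reachable) w
    refine ⟨![(R \ S) ⊔ SimpleGraph.edge c p, (B \ S') \ SimpleGraph.edge c p, S ⊔ S'],
      ?_, ?_, ?_, ?_, ?_⟩
    · intro i
      fin_cases i
      · exact SimpleGraph.IsAcyclic.sup_edge_of_not_reachable hunr hacR
      · exact hacB.anti sdiff_le
      · exact hac3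
    · intro i v
      have e1 := hSdeg v
      have e2 := hSdeg' v
      have e3 := h3deg v
      have e4 := hS1 v
      have e5 := hS1' v
      have e6 := hR v
      have e7 := hB v
      have e8 := hL2 v
      have e9 := hL1 v
      fin_cases i
      · change dg ((R \ S) ⊔ SimpleGraph.edge c p) v ≤ 2
        rw [e9]
        split_ifs with hv
        · rcases hv with rfl | rfl <;> omega
        · omega
      · change dg ((B \ S') \ SimpleGraph.edge c p) v ≤ 2
        omega
      · change dg (S ⊔ S') v ≤ 2
        omega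
    · intro v
      rw [Fin.sum_univ_three]
      change Even (dg ((R \ S) ⊔ SimpleGraph.edge c p) v +
        dg ((B \ S') \ SimpleGraph.edge c p) v + dg (S ⊔ S') v)
      have e1 := hSdeg v
      have e2 := hSdeg' v
      have e3 := h3deg v
      have e6 := hdG v
      have e8 := hL2 v
      have e9 := hL1 v
      obtain ⟨r, hr⟩ := heven v
      exact ⟨r, by omega⟩
    · change Odd (Finset.univ.filter (fun v : V => dg ((R \ S) ⊔ SimpleGraph.edge c p) v = 1 ∧
        dg ((B \ S') \ SimpleGraph.edge c p) v = 1)).card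
      have hins : (Finset.univ.filter (fun v : V => dg (R \ S) v = 1 ∧ dg (B \ S') v = 1)) =
          insert p (Finset.univ.filter (fun v : V => dg ((R \ S) ⊔ SimpleGraph.edge c p) v = 1 ∧
          dg ((B \ S') \ SimpleGraph.edge c p) v = 1)) := by
        ext v
        simp only [Finset.mem_filter, Finset.mem_univ, true_and, Finset.mem_insert]
        have e1 := hSdeg v
        have e2 := hSdeg' v
        have e8 := hL2 v
        have e9 := hL1 v
        have e6 := hR v
        have e7 := hB v
        by_cases hvc : v = c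
        · subst hvc
          simp only [true_or, if_true] at e8 e9
          have := hcp.ne
          simp only [this, false_or]
          omega
        · by_cases hvp : v = p
          · subst hvp
            simp only [true_or, iff_true]
            omega
          · simp only [hvc, hvp, or_self, if_false, add_zero, false_or] at e8 e9 ⊢
            rw [e8, e9]
      rw [hins, Finset.card_insert_of_notMem] at hodd
      · rw [← Nat.not_even_iff_odd]
        intro h
        exact absurd hodd (by rw [Nat.even_add_one]; exact not_not.2 h)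
      · simp only [Finset.mem_filter, Finset.mem_univ, true_and, not_and]
        intro h
        exfalso
        have e9 := hL1 p
        simp only [or_true, if_true] at e9
        have e1 := hSdeg p
        have e6 := hR p
        omega
    · intro x y
      rw [par3]
      change G.Adj x y ↔ Xor' (Xor' (((R \ S) ⊔ SimpleGraph.edge c p).Adj x y)
        (((B \ S') \ SimpleGraph.edge c p).Adj x y)) ((S ⊔ S').Adj x y)
      rw [← hG]
      simp only [SimpleGraph.sdiff_adj, SimpleGraph.sup_adj]
      have k1 := hdis x y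
      have k2 : S.Adj x y → R.Adj x y := fun h => hS.1 h
      have k3 : S'.Adj x y → B.Adj x y := fun h => hS'.1 h
      have k4 := hedge x y
      exact logic2 _ _ _ _ _ k1 k2 k3 k4

theorem three_paths (hd : S_decomp) (hr : S_selRed) (hb : S_selBlue) [DecidableEq V]
    (G : SimpleGraph V) [DecidableRel G.Adj]
    (heven : ∀ v, Even (G.degree v)) (h4 : G.maxDegree = 4) :
    ∃ (u w : Fin 3 → V) (P : ∀ i, (⊤ : SimpleGraph V).Walk (u i) (w i)), (∀ i, (P i).IsPath) ∧
      ∀ e : Sym2 V, e ∈ G.edgeSet ↔
        Odd (Finset.univ.filter (fun i => e ∈ (P i).edges)).card := by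
  classical
  have hdg : ∀ v, dg G v = G.degree v := by
    intro v
    rw [← SimpleGraph.card_neighborFinset_eq_degree]
    exact dg_of_mem (by simp)
  have hle : ∀ v, dg G v ≤ 4 := by
    intro v
    rw [hdg, ← h4]
    exact G.degree_le_maxDegree v
  obtain ⟨c, hc⟩ : ∃ c, dg G c = 4 := by
    by_contra hno
    push Not at hno
    have : G.maxDegree ≤ 3 := by
      apply G.maxDegree_le_of_forall_degree_le
      intro v
      have h1 := hle v
      have h2 := hno v
      rw [hdg] at h1 h2
      omega
    omega
  obtain ⟨L, h1, h2, h3, h5, h6⟩ := forests hd hr hb G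
    (fun v => by rw [hdg]; exact heven v) hle c hc
  obtain ⟨L', k1, k2, k3, k4⟩ := link V L h1 h2 h3 h5
  have hex : ∀ i, ∃ (a b : V) (P : (⊤ : SimpleGraph V).Walk a b), P.IsPath ∧
      ∀ e, e ∈ P.edges ↔ e ∈ (L' i).edgeSet := by
    intro i
    obtain ⟨a, b, hab, ha, hb, hall⟩ := k3 i
    obtain ⟨P, hP⟩ := onepath V (L' i) (k1 i) (k2 i) a b hab ha hb hall
    exact ⟨a, b, P, hP⟩
  choose a b P hP1 hP2 using hex
  refine ⟨a, b, P, hP1, ?_⟩
  intro e
  induction e using Sym2.ind with
  | _ x y =>
    rw [SimpleGraph.mem_edgeSet, h6 x y]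
    have := k4 x y
    rw [← this]
    have : (Finset.univ.filter (fun i => s(x, y) ∈ (P i).edges)) =
        (Finset.univ.filter (fun i => (L' i).Adj x y)) := by
      ext i
      simp only [Finset.mem_filter, Finset.mem_univ, true_and, hP2, SimpleGraph.mem_edgeSet]
    rw [← this]

end Pool.Agent.Q131.PO4
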